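import Pool.Agent.Lib.MP_edb5be_nt.PD.Iface

/-!
Project PD (MP_edb5be_nt), module WGW: the sets `WW` satisfy `GW`.
-/

set_option autoImplicit false

namespace Pool.Agent.Lib.MP_edb5be_nt.PD.H9

open Finset Pool.Agent.Lib.MP_edb5be_nt.EX

theorem wds_mem (A : ℕ) : ∀ (h : ℕ) (u : List ℕ), u ∈ wds A h → u.length = h ∧ ∀ a ∈ u, 1 ≤ a
  | 0, u, hu => by
    rw [wds, mem_singleton] at hu
    subst hu
    simp
  | h + 1, u, hu => by
    rw [wds, mem_biUnion] at hu
    obtain ⟨a, ha, hu⟩ := hu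
    rw [mem_image] at hu
    obtain ⟨v, hv, rfl⟩ := hu
    obtain ⟨h1, h2⟩ := wds_mem A h v hv
    refine ⟨by rw [List.length_cons, h1], ?_⟩
    intro b hb
    rcases List.mem_cons.1 hb with rfl | hb
    · exact (mem_Icc.1 ha).1
    · exact h2 b hb

theorem gw_mono {Γ Γ' : ℝ} (h : Γ ≤ Γ') {n : ℕ} {W : Finset (List ℕ)} (hW : GW Γ n W) :
    GW Γ' n W :=
  ⟨hW.len, hW.pos, hW.lo, hW.hi, fun u hu =>
    (hW.cb u hu).trans (mul_le_mul_of_nonneg_right h (by positivity))⟩

theorem nn_ge (N : ℕ) : ∀ t : ℕ, N ≤ nn N t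
  | 0 => le_rfl
  | t + 1 => (nn_ge N t).trans (by rw [nn]; exact Nat.le_add_right _ _)

theorem aux (N n : ℕ) (hN : 20 ≤ N) (hn : N ≤ n) : 5 * (4 / 5 : ℝ) ^ n ≤ 1 := by
  have h1 : (4 / 5 : ℝ) ^ n ≤ (4 / 5) ^ 20 :=
    pow_le_pow_of_le_one (by norm_num) (by norm_num) (hN.trans hn)
  have h2 : (4 / 5 : ℝ) ^ 20 ≤ 1 / 5 := by norm_num
  linarith

theorem wgw (hG : GCatStatement) : WGwStatement := by
  intro Γ N t hN
  have key : ∀ t : ℕ, GW ((Γ : ℝ) + 1 - 5 * (4 / 5) ^ (nn N t)) (nn N t) (WW Γ N t) := by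
    intro t
    induction t with
    | zero =>
      refine ⟨?_, ?_, ?_, ?_, ?_⟩
      · intro u hu
        rw [WW, Rw, mem_filter, mem_filter] at hu
        exact (wds_mem _ _ u hu.1.1).1
      · intro u hu
        rw [WW, Rw, mem_filter, mem_filter] at hu
        exact (wds_mem _ _ u hu.1.1).2
      · intro u hu
        rw [WW, Rw, mem_filter, mem_filter] at hu
        exact hu.1.2.1
      · intro u hu
        rw [WW, Rw, mem_filter, mem_filter] at hu
        exact hu.1.2.2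
      · intro u hu
        rw [WW, mem_filter] at hu
        have h1 : (cc u : ℝ) ≤ Γ * 2 ^ u.sum := by exact_mod_cast hu.2
        refine h1.trans (mul_le_mul_of_nonneg_right ?_ (by positivity))
        have := aux N (nn N 0) hN (nn_ge N 0)
        linarith
    | succ t ih =>
      have hn := nn_ge N t
      have h0 := aux N (nn N t) hN hn
      have h1 := hG ((Γ : ℝ) + 1 - 5 * (4 / 5) ^ (nn N t)) (nn N t) (nn N t / 20) (WW Γ N t)
        (by have : (0 : ℝ) ≤ Γ := Nat.cast_nonneg _; linarith) ih (by omega)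
      have h2 : nn N (t + 1) = nn N t + nn N t / 20 := rfl
      have h3 : WW Γ N (t + 1) = cat (WW Γ N t) (Rw (nn N t / 20)) := rfl
      rw [h3, h2]
      refine gw_mono ?_ h1
      have h4 : (4 / 5 : ℝ) ^ (nn N t + nn N t / 20) ≤ (4 / 5) ^ (nn N t + 1) :=
        pow_le_pow_of_le_one (by norm_num) (by norm_num) (by omega)
      rw [pow_succ] at h4
      linarith
  refine gw_mono ?_ (key t)
  have : (0 : ℝ) ≤ 5 * (4 / 5) ^ (nn N t) := by positivity
  linarith

end Pool.Agent.Lib.MP_edb5be_nt.PD.H9
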