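import Pool.Agent.Lib.MP_edb5be_nt.PD.Iface
import Pool.Agent.Lib.MP_edb5be_nt.PD.H9.Wgw
import Pool.Agent.Lib.MP_edb5be_nt.ND.H21.Ffa
import Pool.Agent.Lib.MP_0a5adf_nt.TP.Main

/-!
Project PD (MP_edb5be_nt), module MIX: mixing, with any power of the level.
-/

set_option autoImplicit false

namespace Pool.Agent.Lib.MP_edb5be_nt.PD.H9

open Finset Filter Topology Pool.Agent.Lib.MP_edb5be_nt.EX Pool.Agent.Lib.MP_0a5adf_nt.TP
open Pool.Agent.Lib.MP_edb5be_nt.ND Pool.Agent.Lib.MP_edb5be_nt.ND.H21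

/-- Periods. -/
theorem per_pow {g : ℤ → ℝ} {n : ℕ} (hg : ∀ x, g (x + 3 ^ n) = g x) {m : ℕ} (hm : n ≤ m) (x : ℤ) :
    g (x + 3 ^ m) = g x := by
  have : ∀ j : ℕ, g (x + 3 ^ n * j) = g x := by
    intro j
    induction j with
    | zero => simp
    | succ j ihj =>
      have e : x + 3 ^ n * ((j + 1 : ℕ) : ℤ) = (x + 3 ^ n * j) + 3 ^ n := by push_cast; ring
      rw [e, hg, ihj]
  have h := this (3 ^ (m - n))
  push_cast at h
  rwa [← pow_add, Nat.add_sub_cancel' hm] at h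

/-- Sums of periodic functions. -/
theorem sum_per {g : ℤ → ℝ} {n : ℕ} (hg : ∀ x, g (x + 3 ^ n) = g x) {m : ℕ} (hm : n ≤ m) :
    ∑ x ∈ range (3 ^ m), g x = 3 ^ (m - n) * ∑ x ∈ range (3 ^ n), g x := by
  induction m, hm using Nat.le_induction with
  | base => simp
  | succ m hm ih =>
    rw [sum3 (fun x => g x)]
    have e : ∀ x ∈ range (3 ^ m), g ((x : ℕ) : ℤ) + g ((x + 3 ^ m : ℕ) : ℤ) +
        g ((x + 2 * 3 ^ m : ℕ) : ℤ) = 3 * g (x : ℕ) := by
      intro x _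
      have e1 : ((x + 3 ^ m : ℕ) : ℤ) = (x : ℤ) + 3 ^ m := by push_cast; ring
      have e2 : ((x + 2 * 3 ^ m : ℕ) : ℤ) = ((x : ℤ) + 3 ^ m) + 3 ^ m := by push_cast; ring
      rw [e1, e2, per_pow hg hm ((x : ℤ) + 3 ^ m), per_pow hg hm]
      ring
    rw [sum_congr rfl e, ← mul_sum, ih, Nat.succ_sub hm, pow_succ]
    ring

theorem tele (A m : ℕ) (hA : 1 ≤ A) (hm : 1 ≤ m) :
    (1 : ℝ) / ((m : ℝ) + 1) ^ (A + 1) ≤ 1 / (m : ℝ) ^ A - 1 / ((m : ℝ) + 1) ^ A := by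
  have hm0 : (0 : ℝ) < m := by exact_mod_cast hm
  obtain ⟨B, rfl⟩ : ∃ B, A = B + 1 := ⟨A - 1, by omega⟩
  have h1 : (m : ℝ) ^ B ≤ ((m : ℝ) + 1) ^ B := pow_le_pow_left₀ hm0.le (by linarith) B
  rw [div_sub_div _ _ (by positivity) (by positivity), div_le_div_iff₀ (by positivity)
    (by positivity)]
  have h2 : (m : ℝ) ^ (B + 1) * ((m : ℝ) + 2) ≤ ((m : ℝ) + 1) ^ (B + 2) := by
    calc (m : ℝ) ^ (B + 1) * ((m : ℝ) + 2) = (m : ℝ) ^ B * (m * (m + 2)) := by ring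
      _ ≤ ((m : ℝ) + 1) ^ B * (m * (m + 2)) := by
          apply mul_le_mul_of_nonneg_right h1
          positivity
      _ ≤ ((m : ℝ) + 1) ^ B * (m + 1) ^ 2 := by
          apply mul_le_mul_of_nonneg_left _ (by positivity)
          nlinarith
      _ = _ := by ring
  have h3 : (0 : ℝ) < ((m : ℝ) + 1) ^ (B + 1) := by positivity
  have h4 := mul_le_mul_of_nonneg_left h2 h3.le
  have e1 : ((m : ℝ) + 1) ^ (B + 2) = ((m : ℝ) + 1) ^ (B + 1) * (m + 1) := by ring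
  have e2 : ((m : ℝ) + 1) ^ (B + 1 + 1) = ((m : ℝ) + 1) ^ (B + 1) * (m + 1) := by ring
  rw [e1] at h4
  rw [e2]
  nlinarith [h4]

theorem closenessA (A : ℕ) (hA : 1 ≤ A) :
    ∃ C : ℝ, 0 < C ∧ ∀ n m : ℕ, 1 ≤ n → n ≤ m →
      ∑ x ∈ range (3 ^ m), |FF m x - FF n x| ≤ C / (n : ℝ) ^ A * 3 ^ m := by
  obtain ⟨C, hC, hJC⟩ := joscT (A + 1)
  refine ⟨C, hC, fun n m hn hm => ?_⟩
  have hn0 : (0 : ℝ) < n := by exact_mod_cast hn
  have key : ∑ x ∈ range (3 ^ m), |FF m x - FF n x| ≤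
      C * (1 / (n : ℝ) ^ A - 1 / (m : ℝ) ^ A) * 3 ^ m := by
    induction m, hm using Nat.le_induction with
    | base => simp
    | succ m hm ih =>
      have h1 : ∑ x ∈ range (3 ^ (m + 1)), |FF (m + 1) x - FF n x| ≤
          ∑ x ∈ range (3 ^ (m + 1)), |FF (m + 1) x - FF m x| +
            ∑ x ∈ range (3 ^ (m + 1)), |FF m x - FF n x| := by
        rw [← sum_add_distrib]
        exact sum_le_sum fun x _ => abs_sub_le _ _ _
      have h2 := one_level massT phiT (m := m) (fun c₁ => hJC (m + 1) c₁ (by omega))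
      have hper : ∀ x : ℤ, |FF m (x + 3 ^ m) - FF n (x + 3 ^ m)| = |FF m x - FF n x| := by
        intro x
        rw [FF_period m, per_pow (FF_period n) hm]
      have h3 : ∑ x ∈ range (3 ^ (m + 1)), |FF m x - FF n x| =
          3 * ∑ x ∈ range (3 ^ m), |FF m x - FF n x| := by
        have h := sum_per (g := fun x => |FF m x - FF n x|) hper (Nat.le_succ m)
        rw [Nat.succ_eq_add_one, Nat.add_sub_cancel_left, pow_one] at h
        exact h
      rw [h3] at h1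
      refine h1.trans ((add_le_add h2 (mul_le_mul_of_nonneg_left ih (by norm_num))).trans ?_)
      have h4 := tele A m hA (hn.trans hm)
      have h5 := mul_le_mul_of_nonneg_left h4 hC.le
      have h6 : (0 : ℝ) < 3 ^ (m + 1) := by positivity
      have h7 := mul_le_mul_of_nonneg_left h5 h6.le
      push_cast
      rw [pow_succ (3 : ℝ) m] at h7 ⊢
      have e : C / ((m : ℝ) + 1) ^ (A + 1) = C * (1 / ((m : ℝ) + 1) ^ (A + 1)) := by ring
      rw [e]
      nlinarith [h7]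
  refine key.trans ?_
  have h8 : (0 : ℝ) ≤ 1 / (m : ℝ) ^ A := by positivity
  have : C * (1 / (n : ℝ) ^ A - 1 / (m : ℝ) ^ A) ≤ C / (n : ℝ) ^ A := by
    rw [div_eq_mul_one_div C]
    exact mul_le_mul_of_nonneg_left (by linarith) hC.le
  exact mul_le_mul_of_nonneg_right this (by positivity)

theorem fd_eq (hW : PhiWStatement) (m : ℕ) (x : ℤ) : Fd m x = Phi m x := by
  rw [hW m x]
  unfold Fd su Uw
  rw [filter_filter]
  refine sum_congr ?_ ?_
  · refine filter_congr fun u hu => ?_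
    unfold Ad
    rw [(wds_mem _ _ u hu).1]
  · intro u hu
    rw [mem_filter] at hu
    rw [mul_one, wt, (wds_mem _ _ u hu.1).1]

theorem phi_period (m : ℕ) (x : ℤ) : Phi m (x + 3 ^ m) = Phi m x := by
  unfold Phi
  have h := ZMod.natCast_self (3 ^ m)
  push_cast at h ⊢
  rw [h, add_zero]

theorem geo (A : ℕ) : ∃ C : ℝ, 0 < C ∧ ∀ n : ℕ, 1 ≤ n → (3 / 5 : ℝ) ^ n ≤ C / (n : ℝ) ^ A := by
  have h := tendsto_pow_const_mul_const_pow_of_lt_one A (r := (3 / 5 : ℝ)) (by norm_num)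
    (by norm_num)
  obtain ⟨C, hC⟩ := h.bddAbove_range
  refine ⟨max C 1, lt_max_of_lt_right one_pos, fun n hn => ?_⟩
  have hn0 : (0 : ℝ) < (n : ℝ) ^ A := by
    have : (0 : ℝ) < n := by exact_mod_cast hn
    positivity
  rw [le_div_iff₀ hn0, mul_comm]
  exact (hC ⟨n, rfl⟩).trans (le_max_left _ _)

/-- MIX. -/
theorem mix (hW : PhiWStatement) : MixStatement := by
  have main : ∀ A : ℕ, 1 ≤ A → ∃ C : ℝ, 0 < C ∧ ∀ n m : ℕ, 1 ≤ n → n ≤ m →
      ∑ x ∈ range (3 ^ m), |Fd m x - Fd n x| ≤ C / (n : ℝ) ^ A * 3 ^ m := by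
    intro A hA
    obtain ⟨C, hC, h1⟩ := closenessA A hA
    obtain ⟨C', hC', h2⟩ := geo A
    refine ⟨C + 2 * C', by positivity, fun n m hn hm => ?_⟩
    have hF := ffa massT phiT joscT
    have hle : ∀ (k : ℕ) (x : ℤ), Phi k x ≤ FF k x := fun k x => (hF.1 k x).2.2
    have e : ∀ x ∈ range (3 ^ m), |Fd m (x : ℕ) - Fd n (x : ℕ)| ≤
        |FF m (x : ℕ) - FF n (x : ℕ)| + ((FF m (x : ℕ) - Phi m (x : ℕ)) +
          (FF n (x : ℕ) - Phi n (x : ℕ))) := by
      intro x _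
      rw [fd_eq hW, fd_eq hW]
      have a1 := hle m (x : ℕ)
      have a2 := hle n (x : ℕ)
      have a3 := le_abs_self (FF m (x : ℕ) - FF n (x : ℕ))
      have a4 := neg_abs_le (FF m (x : ℕ) - FF n (x : ℕ))
      rw [abs_le]
      constructor <;> linarith
    refine (sum_le_sum e).trans ?_
    rw [sum_add_distrib, sum_add_distrib]
    have b1 := h1 n m hn hm
    have hn0 : (0 : ℝ) < (n : ℝ) ^ A := by
      have : (0 : ℝ) < n := by exact_mod_cast hn
      positivity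
    have b2 : ∑ x ∈ range (3 ^ m), (FF m (x : ℕ) - Phi m (x : ℕ)) ≤
        C' / (n : ℝ) ^ A * 3 ^ m := by
      refine (hF.2.2.1 m).trans ?_
      rw [mul_comm]
      refine mul_le_mul_of_nonneg_right ?_ (by positivity)
      exact (pow_le_pow_of_le_one (by norm_num) (by norm_num) hm).trans (h2 n hn)
    have b3 : ∑ x ∈ range (3 ^ m), (FF n (x : ℕ) - Phi n (x : ℕ)) ≤
        C' / (n : ℝ) ^ A * 3 ^ m := by
      have hp : ∀ x : ℤ, FF n (x + 3 ^ n) - Phi n (x + 3 ^ n) = FF n x - Phi n x := fun x => by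
        rw [FF_period n, phi_period n]
      rw [sum_per (g := fun x => FF n x - Phi n x) hp hm]
      have h3 := mul_le_mul_of_nonneg_left ((hF.2.2.1 n).trans
        (mul_le_mul_of_nonneg_left (h2 n hn) (by positivity)))
        (by positivity : (0 : ℝ) ≤ 3 ^ (m - n))
      refine h3.trans (le_of_eq ?_)
      have h4 : (3 : ℝ) ^ (m - n) * 3 ^ n = 3 ^ m := by
        rw [← pow_add, Nat.sub_add_cancel hm]
      rw [← mul_assoc, h4]
      ring
    have h5 : (C + 2 * C') / (n : ℝ) ^ A * 3 ^ m =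
        C / (n : ℝ) ^ A * 3 ^ m + (C' / (n : ℝ) ^ A * 3 ^ m + C' / (n : ℝ) ^ A * 3 ^ m) := by
      ring
    rw [h5]
    exact add_le_add b1 (add_le_add b2 b3)
  intro A
  rcases Nat.eq_zero_or_pos A with rfl | hA
  · obtain ⟨C, hC, h⟩ := main 1 le_rfl
    refine ⟨C, hC, fun n m hn hm => (h n m hn hm).trans ?_⟩
    refine mul_le_mul_of_nonneg_right ?_ (by positivity)
    have hn1 : (1 : ℝ) ≤ n := by exact_mod_cast hn
    rw [pow_zero, pow_one, div_one]
    exact div_le_self hC.le hn1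
  · exact main A hA

end Pool.Agent.Lib.MP_edb5be_nt.PD.H9
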